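import Mathlib

namespace Pool.Agent.DiffPow

/-- multiplicativity of residue conditions mod 8 -/
lemma mod8_13 (m : ℕ) (hm : m ≠ 0) (h : ∀ p : ℕ, p.Prime → p ∣ m → p % 8 = 1 ∨ p % 8 = 3) :
    m % 8 = 1 ∨ m % 8 = 3 := by
  induction m using Nat.recOnMul with
  | zero => exact absurd rfl hm
  | one => left; rfl
  | prime p hp => exact h p hp dvd_rfl
  | mul a b ha hb =>
    have ha0 : a ≠ 0 := fun h0 => hm (by rw [h0, zero_mul])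
    have hb0 : b ≠ 0 := fun h0 => hm (by rw [h0, mul_zero])
    have h1 := ha ha0 fun p hp hd => h p hp (hd.mul_right b)
    have h2 := hb hb0 fun p hp hd => h p hp (hd.mul_left a)
    rw [Nat.mul_mod]
    rcases h1 with h1 | h1 <;> rcases h2 with h2 | h2 <;> rw [h1, h2] <;> norm_num

lemma mod8_17 (m : ℕ) (hm : m ≠ 0) (h : ∀ p : ℕ, p.Prime → p ∣ m → p % 8 = 1 ∨ p % 8 = 7) :
    m % 8 = 1 ∨ m % 8 = 7 := by
  induction m using Nat.recOnMul with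
  | zero => exact absurd rfl hm
  | one => left; rfl
  | prime p hp => exact h p hp dvd_rfl
  | mul a b ha hb =>
    have ha0 : a ≠ 0 := fun h0 => hm (by rw [h0, zero_mul])
    have hb0 : b ≠ 0 := fun h0 => hm (by rw [h0, mul_zero])
    have h1 := ha ha0 fun p hp hd => h p hp (hd.mul_right b)
    have h2 := hb hb0 fun p hp hd => h p hp (hd.mul_left a)
    rw [Nat.mul_mod]
    rcases h1 with h1 | h1 <;> rcases h2 with h2 | h2 <;> rw [h1, h2] <;> norm_num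

lemma neg_two {m : ℕ} (hm : m ≠ 0) (hodd : m % 2 = 1) {y : ℤ} (h : (m : ℤ) ∣ y ^ 2 + 2) :
    m % 8 = 1 ∨ m % 8 = 3 := by
  refine mod8_13 m hm fun p hp hd => ?_
  have := Fact.mk hp
  have hp2 : p ≠ 2 := by
    rintro rfl
    omega
  rw [← ZMod.exists_sq_eq_neg_two_iff hp2]
  have h1 : ((y ^ 2 + 2 : ℤ) : ZMod p) = 0 := by
    rw [ZMod.intCast_zmod_eq_zero_iff_dvd]
    exact (Int.natCast_dvd_natCast.mpr hd).trans h
  refine ⟨(y : ZMod p), ?_⟩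
  push_cast at h1
  linear_combination -h1

lemma pos_two {m : ℕ} (hm : m ≠ 0) (hodd : m % 2 = 1) {y : ℤ} (h : (m : ℤ) ∣ y ^ 2 - 2) :
    m % 8 = 1 ∨ m % 8 = 7 := by
  refine mod8_17 m hm fun p hp hd => ?_
  have := Fact.mk hp
  have hp2 : p ≠ 2 := by
    rintro rfl
    omega
  rw [← ZMod.exists_sq_eq_two_iff hp2]
  have h1 : ((y ^ 2 - 2 : ℤ) : ZMod p) = 0 := by
    rw [ZMod.intCast_zmod_eq_zero_iff_dvd]
    exact (Int.natCast_dvd_natCast.mpr hd).trans h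
  refine ⟨(y : ZMod p), ?_⟩
  push_cast at h1
  linear_combination -h1

/-- `y² - x³ ≠ 8a³ - 2` -/
lemma sq_sub_cube {a : ℤ} (ha : a % 4 = 1) (x y : ℤ) : y ^ 2 - x ^ 3 ≠ 8 * a ^ 3 - 2 := by
  intro h
  -- everything modulo 8
  have ha3 : (8 * a ^ 3 - 2) % 8 = 6 := by omega
  have hx : x % 8 = 3 ∧ y % 2 = 1 := by
    have h8 : (y ^ 2 - x ^ 3) % 8 = 6 := by rw [h, ha3]
    have hx8 : x % 8 = 0 ∨ x % 8 = 1 ∨ x % 8 = 2 ∨ x % 8 = 3 ∨ x % 8 = 4 ∨ x % 8 = 5 ∨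
      x % 8 = 6 ∨ x % 8 = 7 := by omega
    have hy8 : y % 8 = 0 ∨ y % 8 = 1 ∨ y % 8 = 2 ∨ y % 8 = 3 ∨ y % 8 = 4 ∨ y % 8 = 5 ∨
      y % 8 = 6 ∨ y % 8 = 7 := by omega
    rcases hx8 with hx | hx | hx | hx | hx | hx | hx | hx <;>
      rcases hy8 with hy | hy | hy | hy | hy | hy | hy | hy <;>
      simp [Int.sub_emod, pow_succ, Int.mul_emod, hx, hy] at h8 ⊢ <;> omega
  set t : ℤ := x ^ 2 - 2 * a * x + 4 * a ^ 2 with ht
  have hfac : y ^ 2 + 2 = (x + 2 * a) * t := by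
    rw [ht]
    linear_combination h
  have htpos : 0 < t := by
    have : t = (x - a) ^ 2 + 3 * a ^ 2 := by rw [ht]; ring
    rw [this]
    have ha0 : a ≠ 0 := by rintro rfl; norm_num at ha
    positivity
  have ht8 : t % 8 = 7 := by
    obtain ⟨u, hu⟩ : ∃ u, x = 8 * u + 3 := ⟨x / 8, by omega⟩
    obtain ⟨v, hv⟩ : ∃ v, a = 4 * v + 1 := ⟨a / 4, by omega⟩
    rw [ht, hu, hv]
    have : (8 * u + 3) ^ 2 - 2 * (4 * v + 1) * (8 * u + 3) + 4 * (4 * v + 1) ^ 2 =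
      8 * (8 * u ^ 2 + 6 * u - 8 * u * v - 3 * v - 2 * u + 8 * v ^ 2 + 4 * v) + 7 := by ring
    rw [this]
    omega
  obtain ⟨m, hm⟩ : ∃ m : ℕ, (m : ℤ) = t := ⟨t.toNat, Int.toNat_of_nonneg htpos.le⟩
  have h1 := neg_two (m := m) (y := y) (by rintro rfl; norm_num at hm; omega) (by omega)
    (by rw [hm, hfac]; exact dvd_mul_left _ _)
  omega

/-- `x³ - y² ≠ 8a³ - 2` -/
lemma cube_sub_sq {a : ℤ} (ha : a % 4 = 1) (x y : ℤ) : x ^ 3 - y ^ 2 ≠ 8 * a ^ 3 - 2 := by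
  intro h
  have ha3 : (8 * a ^ 3 - 2) % 8 = 6 := by omega
  have hx : x % 8 = 7 ∧ y % 2 = 1 := by
    have h8 : (x ^ 3 - y ^ 2) % 8 = 6 := by rw [h, ha3]
    have hx8 : x % 8 = 0 ∨ x % 8 = 1 ∨ x % 8 = 2 ∨ x % 8 = 3 ∨ x % 8 = 4 ∨ x % 8 = 5 ∨
      x % 8 = 6 ∨ x % 8 = 7 := by omega
    have hy8 : y % 8 = 0 ∨ y % 8 = 1 ∨ y % 8 = 2 ∨ y % 8 = 3 ∨ y % 8 = 4 ∨ y % 8 = 5 ∨
      y % 8 = 6 ∨ y % 8 = 7 := by omega
    rcases hx8 with hx | hx | hx | hx | hx | hx | hx | hx <;>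
      rcases hy8 with hy | hy | hy | hy | hy | hy | hy | hy <;>
      simp [Int.sub_emod, pow_succ, Int.mul_emod, hx, hy] at h8 ⊢ <;> omega
  set t : ℤ := x ^ 2 + 2 * a * x + 4 * a ^ 2 with ht
  have hfac : y ^ 2 - 2 = (x - 2 * a) * t := by
    rw [ht]
    linear_combination -h
  have htpos : 0 < t := by
    have : t = (x + a) ^ 2 + 3 * a ^ 2 := by rw [ht]; ring
    rw [this]
    have ha0 : a ≠ 0 := by rintro rfl; norm_num at ha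
    positivity
  have ht8 : t % 8 = 3 := by
    obtain ⟨u, hu⟩ : ∃ u, x = 8 * u + 7 := ⟨x / 8, by omega⟩
    obtain ⟨v, hv⟩ : ∃ v, a = 4 * v + 1 := ⟨a / 4, by omega⟩
    rw [ht, hu, hv]
    have : (8 * u + 7) ^ 2 + 2 * (4 * v + 1) * (8 * u + 7) + 4 * (4 * v + 1) ^ 2 =
      8 * (8 * u ^ 2 + 14 * u + 8 * u * v + 7 * v + 2 * u + 8 * v ^ 2 + 4 * v + 8) + 3 := by ring
    rw [this]
    omega
  obtain ⟨m, hm⟩ : ∃ m : ℕ, (m : ℤ) = t := ⟨t.toNat, Int.toNat_of_nonneg htpos.le⟩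
  have h1 := pos_two (m := m) (y := y) (by rintro rfl; norm_num at hm; omega) (by omega)
    (by rw [hm, hfac]; exact dvd_mul_left _ _)
  omega

lemma sq_sub_sq {a : ℤ} (x y : ℤ) : x ^ 2 - y ^ 2 ≠ 8 * a ^ 3 - 2 := by
  intro h
  have h8 : (x ^ 2 - y ^ 2) % 4 = 2 := by rw [h]; omega
  have hx8 : x % 4 = 0 ∨ x % 4 = 1 ∨ x % 4 = 2 ∨ x % 4 = 3 := by omega
  have hy8 : y % 4 = 0 ∨ y % 4 = 1 ∨ y % 4 = 2 ∨ y % 4 = 3 := by omega
  rcases hx8 with hx | hx | hx | hx <;> rcases hy8 with hy | hy | hy | hy <;>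
    simp [Int.sub_emod, pow_succ, Int.mul_emod, hx, hy] at h8

lemma cube_sub_cube {a : ℤ} (ha : a % 3 = 1) (x y : ℤ) : x ^ 3 - y ^ 3 ≠ 8 * a ^ 3 - 2 := by
  intro h
  have key : ∀ x y b : ZMod 9, x ^ 3 - y ^ 3 ≠ 8 * (3 * b + 1) ^ 3 - 2 := by decide
  obtain ⟨v, hv⟩ : ∃ v, a = 3 * v + 1 := ⟨a / 3, by omega⟩
  have h2 := congrArg (Int.cast : ℤ → ZMod 9) h
  rw [hv] at h2
  push_cast at h2
  exact key _ _ _ h2

end Pool.Agent.DiffPow
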