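import Mathlib
import Pool.Agent.DiffPow.Core

namespace Pool.Agent.DiffPow

/-- the family `8 (132 t + 1)³ - 2` -/
def nn (t : ℕ) : ℕ := 8 * (132 * t + 1) ^ 3 - 2

lemma nn_add (t : ℕ) : nn t + 2 = 8 * (132 * t + 1) ^ 3 := by
  unfold nn
  have : 1 ≤ (132 * t + 1) ^ 3 := Nat.one_le_pow _ _ (by omega)
  omega

lemma nn_cast (t : ℕ) : (nn t : ℤ) = 8 * (132 * (t : ℤ) + 1) ^ 3 - 2 := by
  have h := nn_add t
  have h2 : ((nn t + 2 : ℕ) : ℤ) = ((8 * (132 * t + 1) ^ 3 : ℕ) : ℤ) := by rw [h]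
  push_cast at h2
  linarith

lemma nn_pos (t : ℕ) : 0 < nn t := by
  have h := nn_add t
  have : 1 ≤ (132 * t + 1) ^ 3 := Nat.one_le_pow _ _ (by omega)
  omega

lemma nn_strictMono : StrictMono nn := by
  intro a b hab
  have h1 := nn_add a
  have h2 := nn_add b
  have h3 : (132 * a + 1) ^ 3 < (132 * b + 1) ^ 3 := Nat.pow_lt_pow_left (by omega) (by norm_num)
  omega

lemma pow_lower (Y p : ℕ) (hY : 1 ≤ Y) : Y ^ p + 2 ^ p ≤ (Y + 1) ^ p + 1 := by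
  induction p with
  | zero => simp
  | succ p ih =>
    have h1 : 1 ≤ Y ^ p := Nat.one_le_pow _ _ hY
    have h2 : 1 ≤ 2 ^ p := Nat.one_le_pow _ _ (by norm_num)
    rw [pow_succ, pow_succ, pow_succ]
    nlinarith [Nat.mul_le_mul hY h2, Nat.mul_le_mul ih hY]

lemma bounds {p D Y n s : ℕ} (hp : 7 ≤ p) (hD : 1 ≤ D) (hY : 1 ≤ Y)
    (h : (Y + D) ^ p = n + Y ^ p) (hn : n + 2 ≤ 2 ^ (42 * s)) :
    p ≤ 42 * s ∧ D ≤ 2 ^ (6 * s) ∧ Y ≤ 2 ^ (7 * s) := by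
  have h1 : (Y + 1) ^ p ≤ (Y + D) ^ p := Nat.pow_le_pow_left (by omega) p
  refine ⟨?_, ?_, ?_⟩
  · have h2 := pow_lower Y p hY
    have h3 : 2 ^ p ≤ 2 ^ (42 * s) := by omega
    exact (Nat.pow_le_pow_iff_right (by norm_num)).mp h3
  · have h2 : Y ^ p + D ^ p ≤ (Y + D) ^ p :=
      pow_add_pow_le (Nat.zero_le _) (Nat.zero_le _) (by omega)
    have h3 : D ^ 7 ≤ D ^ p := Nat.pow_le_pow_right hD hp
    have h4 : D ^ 7 ≤ (2 ^ (6 * s)) ^ 7 := by
      rw [← pow_mul, show 6 * s * 7 = 42 * s by ring]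
      omega
    exact (Nat.pow_le_pow_iff_left (by norm_num)).mp h4
  · have h2 : Y ^ p + Y ^ (p - 1) ≤ (Y + 1) ^ p := by
      obtain ⟨q, rfl⟩ : ∃ q, p = q + 1 := ⟨p - 1, by omega⟩
      rw [Nat.add_sub_cancel, pow_succ, pow_succ]
      have : Y ^ q ≤ (Y + 1) ^ q := Nat.pow_le_pow_left (by omega) q
      nlinarith
    have h3 : Y ^ 6 ≤ Y ^ (p - 1) := Nat.pow_le_pow_right hY (by omega)
    have h4 : Y ^ 6 ≤ (2 ^ (7 * s)) ^ 6 := by
      rw [← pow_mul, show 7 * s * 6 = 42 * s by ring]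
      omega
    exact (Nat.pow_le_pow_iff_left (by norm_num)).mp h4

/-- not all large members of the family are differences of two `p`-th powers, `p ≥ 7` -/
lemma counting (t0 : ℕ)
    (h : ∀ t, t0 ≤ t → ∃ p D Y : ℕ, 7 ≤ p ∧ 1 ≤ D ∧ 1 ≤ Y ∧ (Y + D) ^ p = nn t + Y ^ p) :
    False := by
  have h' : ∀ t, ∃ q : ℕ × ℕ × ℕ, t0 ≤ t →
      7 ≤ q.1 ∧ 1 ≤ q.2.1 ∧ 1 ≤ q.2.2 ∧ (q.2.2 + q.2.1) ^ q.1 = nn t + q.2.2 ^ q.1 := by
    intro t
    by_cases ht : t0 ≤ t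
    · obtain ⟨p, D, Y, h1⟩ := h t ht
      exact ⟨(p, D, Y), fun _ => h1⟩
    · exact ⟨(0, 0, 0), fun h => absurd h ht⟩
  choose q hq using h'
  obtain ⟨s, hs⟩ : ∃ s, s = t0 + 30 := ⟨_, rfl⟩
  have hmap : ∀ t ∈ Finset.Ico t0 (2 ^ (14 * s - 9)),
      q t ∈ Finset.range (42 * s + 1) ×ˢ (Finset.range (2 ^ (6 * s) + 1) ×ˢ
        Finset.range (2 ^ (7 * s) + 1)) := by
    intro t ht
    rw [Finset.mem_Ico] at ht
    obtain ⟨h1, h2, h3, h4⟩ := hq t ht.1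
    have hn : nn t + 2 ≤ 2 ^ (42 * s) := by
      rw [nn_add]
      have e1 : 2 * (132 * t + 1) ≤ 2 ^ (14 * s) := by
        have e2 : 2 ^ (14 * s) = 2 ^ (14 * s - 9) * 2 ^ 9 := by
          rw [← pow_add]
          exact congrArg (fun z => 2 ^ z) (show 14 * s = 14 * s - 9 + 9 by omega)
        rw [e2]
        have ht2 := ht.2
        generalize 2 ^ (14 * s - 9) = w at ht2 ⊢
        omega
      calc 8 * (132 * t + 1) ^ 3 = (2 * (132 * t + 1)) ^ 3 := by ring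
        _ ≤ (2 ^ (14 * s)) ^ 3 := Nat.pow_le_pow_left e1 3
        _ = 2 ^ (42 * s) := by rw [← pow_mul]; congr 1; ring
    obtain ⟨b1, b2, b3⟩ := bounds h1 h2 h3 h4 hn
    simp only [Finset.mem_product, Finset.mem_range]
    omega
  have hinj : Set.InjOn q (Finset.Ico t0 (2 ^ (14 * s - 9)) : Finset ℕ) := by
    intro a ha b hb hab
    rw [Finset.mem_coe, Finset.mem_Ico] at ha hb
    have h1 := (hq a ha.1).2.2.2
    have h2 := (hq b hb.1).2.2.2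
    rw [hab] at h1
    exact nn_strictMono.injective (by omega)
  have hcard := Finset.card_le_card_of_injOn q hmap hinj
  rw [Nat.card_Ico, Finset.card_product, Finset.card_product, Finset.card_range,
    Finset.card_range, Finset.card_range] at hcard
  set A := 2 ^ (6 * s) with hA
  set B := 2 ^ (7 * s) with hB
  have hA1 : 1 ≤ A := Nat.one_le_pow _ _ (by norm_num)
  have hB1 : 1 ≤ B := Nat.one_le_pow _ _ (by norm_num)
  have hK : 2 ^ (14 * s - 9) * 512 = 2 ^ s * (A * B) := by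
    rw [hA, hB, show (512 : ℕ) = 2 ^ 9 by norm_num, ← pow_add, ← pow_add, ← pow_add]
    exact congrArg (fun z => 2 ^ z) (show 14 * s - 9 + 9 = s + (6 * s + 7 * s) by omega)
  have h1 : (A + 1) * (B + 1) ≤ 4 * (A * B) := by nlinarith [Nat.mul_le_mul hA1 hB1]
  have hAB : 1 ≤ A * B := Nat.mul_le_mul hA1 hB1
  have h2 : 2 ^ (14 * s - 9) ≤ t0 + (42 * s + 1) * (4 * (A * B)) := by
    have := Nat.mul_le_mul_left (42 * s + 1) h1
    omega
  have h3 : 2 ^ s * (A * B) ≤ (2048 * (42 * s + 1 + t0)) * (A * B) := by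
    rw [← hK]
    nlinarith [Nat.mul_le_mul_left t0 hAB]
  have h4 : 2 ^ s ≤ 2048 * (42 * s + 1 + t0) := Nat.le_of_mul_le_mul_right h3 hAB
  have h5 : t0 + 1 ≤ 2 ^ t0 := Nat.lt_two_pow_self
  have h6 : 2 ^ s = 2 ^ t0 * 1073741824 := by
    rw [hs, pow_add]
    norm_num
  rw [h6, hs] at h4
  omega

/-- the exponents considered: either both have a common factor with 6, or they have a common
factor with each other -/
def Good (k l : ℕ) : Prop := (¬ Nat.Coprime k 6 ∧ ¬ Nat.Coprime l 6) ∨ ¬ Nat.Coprime k l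

lemma two_or_three {k : ℕ} (h : ¬ Nat.Coprime k 6) : 2 ∣ k ∨ 3 ∣ k := by
  by_contra hcon
  push Not at hcon
  apply h
  rw [show (6 : ℕ) = 2 * 3 by norm_num, Nat.coprime_mul_iff_right]
  exact ⟨((Nat.Prime.coprime_iff_not_dvd Nat.prime_two).mpr hcon.1).symm,
    ((Nat.Prime.coprime_iff_not_dvd Nat.prime_three).mpr hcon.2).symm⟩

lemma no22 (t X Y : ℕ) : X ^ 2 ≠ nn t + Y ^ 2 := by
  intro h
  refine sq_sub_sq (a := 132 * (t : ℤ) + 1) X Y ?_
  rw [← nn_cast]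
  have : ((X ^ 2 : ℕ) : ℤ) = ((nn t + Y ^ 2 : ℕ) : ℤ) := by rw [h]
  push_cast at this
  linarith

lemma no23 (t X Y : ℕ) : X ^ 2 ≠ nn t + Y ^ 3 := by
  intro h
  refine sq_sub_cube (a := 132 * (t : ℤ) + 1) (by omega) Y X ?_
  rw [← nn_cast]
  have : ((X ^ 2 : ℕ) : ℤ) = ((nn t + Y ^ 3 : ℕ) : ℤ) := by rw [h]
  push_cast at this
  linarith

lemma no32 (t X Y : ℕ) : X ^ 3 ≠ nn t + Y ^ 2 := by
  intro h
  refine cube_sub_sq (a := 132 * (t : ℤ) + 1) (by omega) X Y ?_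
  rw [← nn_cast]
  have : ((X ^ 3 : ℕ) : ℤ) = ((nn t + Y ^ 2 : ℕ) : ℤ) := by rw [h]
  push_cast at this
  linarith

lemma no33 (t X Y : ℕ) : X ^ 3 ≠ nn t + Y ^ 3 := by
  intro h
  refine cube_sub_cube (a := 132 * (t : ℤ) + 1) (by omega) X Y ?_
  rw [← nn_cast]
  have : ((X ^ 3 : ℕ) : ℤ) = ((nn t + Y ^ 3 : ℕ) : ℤ) := by rw [h]
  push_cast at this
  linarith

lemma no55 (t X Y : ℕ) : X ^ 5 ≠ nn t + Y ^ 5 := by
  intro h
  have key : ∀ x y : ZMod 11, x ^ 5 ≠ 6 + y ^ 5 := by decide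
  have h2 := congrArg (Nat.cast : ℕ → ZMod 11) h
  have h3 : ((nn t : ℕ) : ZMod 11) = 6 := by
    have e : ((nn t + 2 : ℕ) : ZMod 11) = ((8 * (132 * t + 1) ^ 3 : ℕ) : ZMod 11) := by
      rw [nn_add]
    push_cast at e
    rw [show (132 : ZMod 11) = 0 by decide] at e
    have e2 : (nn t : ZMod 11) = 8 * (0 * (t : ZMod 11) + 1) ^ 3 - 2 := by
      rw [← e]; ring
    rw [e2, zero_mul, zero_add, one_pow, mul_one]
    decide
  push_cast at h2
  rw [h3] at h2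
  exact key _ _ h2

theorem main : {n : ℕ | 0 < n ∧ ∀ x y k l : ℕ, 0 < x → 0 < y → 2 ≤ k → 2 ≤ l → Good k l →
    x ^ k ≠ n + y ^ l}.Infinite := by
  intro hfin
  obtain ⟨N, hN⟩ := hfin.bddAbove
  refine counting (N + 1) fun t ht => ?_
  have hbig : N < nn t := lt_of_lt_of_le (by omega) nn_strictMono.le_apply
  have hnot : ¬ (0 < nn t ∧ ∀ x y k l : ℕ, 0 < x → 0 < y → 2 ≤ k → 2 ≤ l → Good k l →
    x ^ k ≠ nn t + y ^ l) := by
    intro hc
    have := hN hc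
    omega
  push Not at hnot
  obtain ⟨x, y, k, l, hx, hy, hk, hl, hgood, heq⟩ := hnot (nn_pos t)
  rcases hgood with ⟨hk6, hl6⟩ | hcop
  · exfalso
    rcases two_or_three hk6 with ⟨k', rfl⟩ | ⟨k', rfl⟩ <;>
      rcases two_or_three hl6 with ⟨l', rfl⟩ | ⟨l', rfl⟩ <;>
      rw [mul_comm _ k', mul_comm _ l', pow_mul, pow_mul] at heq
    · exact no22 _ _ _ heq
    · exact no23 _ _ _ heq
    · exact no32 _ _ _ heq
    · exact no33 _ _ _ heq
  · obtain ⟨p, hp, hpk, hpl⟩ := Nat.Prime.not_coprime_iff_dvd.mp hcop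
    obtain ⟨k', rfl⟩ := hpk
    obtain ⟨l', rfl⟩ := hpl
    rw [mul_comm _ k', mul_comm _ l', pow_mul, pow_mul] at heq
    have hX : 0 < x ^ k' := pow_pos hx _
    have hY : 0 < y ^ l' := pow_pos hy _
    have hp2 : p ≠ 2 := by
      rintro rfl
      exact no22 _ _ _ heq
    have hp3 : p ≠ 3 := by
      rintro rfl
      exact no33 _ _ _ heq
    have hp5 : p ≠ 5 := by
      rintro rfl
      exact no55 _ _ _ heq
    have hp7 : 7 ≤ p := by
      by_contra hlt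
      have : p ≤ 6 := by omega
      interval_cases p <;> first | omega | (revert hp; decide)
    have hlt : y ^ l' < x ^ k' := by
      have h1 := nn_pos t
      have h2 : (y ^ l') ^ p < (x ^ k') ^ p := by omega
      exact (Nat.pow_lt_pow_iff_left (by omega)).mp h2
    refine ⟨p, x ^ k' - y ^ l', y ^ l', hp7, by omega, hY, ?_⟩
    rw [← heq]
    congr 1
    omega

end Pool.Agent.DiffPow
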